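import Pool.Agent.H70.RZT.S

/-!
# RZT: KKN, the extension `K` of `K`
-/

set_option autoImplicit false

namespace Pool.RZT

open Polynomial Matrix NumberField IsDedekindDomain Pool.HYP Pool.TOW Pool.AVS Pool.T1 Pool.NF

/-- Every place of `K` splits completely in `K`. -/
theorem splV_self {K : Type} [Field K] (w : ValuationSubring K) : SplV K w := by
  intro L _ O ι h z a ha
  obtain ⟨x, hx⟩ := h.1.dense z a ha
  exact ⟨x, by rw [Algebra.algebraMap_self, RingHom.id_apply]; exact hx⟩

/-- Every place of `K` is unramified in `K`. -/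
theorem unrV_self {K : Type} [Field K] (w : ValuationSubring K) : UnrV K w := by
  intro L _ O ι h z hz hz'
  have hz0 : z ≠ 0 := by
    intro h0
    apply hz'
    rw [h0, _root_.inv_zero]
    exact O.zero_mem
  obtain ⟨x, hx⟩ := h.1.dense z (z * z) (mul_ne_zero hz0 hz0)
  set u : L := (z - ι x) / (z * z) with hu
  have e : ι x = z * (1 - z * u) := by
    rw [hu]
    field_simp
    ring
  have hzu : z * u ∈ O := O.mul_mem _ _ hz hx
  have h1 : 1 - z * u ∈ O := sub_mem O.one_mem hzu
  have h10 : 1 - z * u ≠ 0 := by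
    intro h0
    apply hz'
    have h2 : z * u = 1 := (sub_eq_zero.1 h0).symm
    have h3 : z⁻¹ = u := inv_eq_of_mul_eq_one_right h2
    rw [h3]
    exact hx
  have h2 : (1 - z * u)⁻¹ ∈ O := by
    by_contra hc
    have hmax : (⟨1 - z * u, h1⟩ : O) ∈ IsLocalRing.maximalIdeal O := by
      rw [IsLocalRing.mem_maximalIdeal, mem_nonunits_iff]
      intro hun
      apply hc
      obtain ⟨v, hv⟩ := hun
      have h4 : (1 - z * u) * ((v⁻¹ : Oˣ) : O) = 1 := by
        have h5 : ((v : O) * ((v⁻¹ : Oˣ) : O) : O) = 1 := v.mul_inv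
        have h6 := congrArg (fun t : O => (t : L)) h5
        simp only [hv] at h6
        exact h6
      rw [inv_eq_of_mul_eq_one_right h4]
      exact ((v⁻¹ : Oˣ) : O).2
    have hmz : (⟨z * u, hzu⟩ : O) ∈ IsLocalRing.maximalIdeal O := by
      rw [IsLocalRing.mem_maximalIdeal, mem_nonunits_iff]
      intro hun
      apply hz'
      obtain ⟨v, hv⟩ := hun
      have h4 : z * (u * ((v⁻¹ : Oˣ) : O)) = 1 := by
        have h5 : ((v : O) * ((v⁻¹ : Oˣ) : O) : O) = 1 := v.mul_inv
        have h6 := congrArg (fun t : O => (t : L)) h5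
        simp only [hv] at h6
        rw [← mul_assoc]
        exact h6
      rw [inv_eq_of_mul_eq_one_right h4]
      exact O.mul_mem _ _ hx ((v⁻¹ : Oˣ) : O).2
    have hs := Ideal.add_mem _ hmax hmz
    have h1e : (⟨1 - z * u, h1⟩ : O) + ⟨z * u, hzu⟩ = 1 := by
      apply Subtype.ext
      change (1 - z * u) + z * u = 1
      ring
    rw [h1e] at hs
    exact (IsLocalRing.maximalIdeal.isMaximal O).ne_top ((Ideal.eq_top_iff_one _).2 hs)
  have hx0 : ι x ≠ 0 := by rw [e]; exact mul_ne_zero hz0 h10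
  have hxO : ι x ∈ O := by rw [e]; exact O.mul_mem _ _ hz h1
  have hxO' : (ι x)⁻¹ ∉ O := by
    intro hc
    apply hz'
    have h7 : z⁻¹ = (ι x)⁻¹ * (1 - z * u) := by
      rw [e, mul_inv, mul_assoc, inv_mul_cancel₀ h10, mul_one]
    rw [h7]
    exact O.mul_mem _ _ hc h1
  refine ⟨x, ?_, ?_, ?_⟩
  · rw [← h.2, ValuationSubring.mem_comap]
    simpa using hxO
  · rw [← h.2, ValuationSubring.mem_comap]
    intro hc
    apply hxO'
    rw [← map_inv₀]
    simpa using hc
  · rw [Algebra.algebraMap_self, RingHom.id_apply]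
    have h8 : z / ι x = (1 - z * u)⁻¹ := by
      rw [e, div_eq_mul_inv, mul_inv, ← mul_assoc, mul_inv_cancel₀ hz0, one_mul]
    rw [h8]
    exact h2

theorem kkn : KKNStmt := by
  intro K _ _ T f
  refine ⟨⟨inferInstance, inferInstance, ⟨0, ?_⟩, fun P _ => splV_self _, fun P _ => splV_self _,
    fun P => Or.inl (unrV_self _)⟩, ?_⟩
  · rw [Module.finrank_self, pow_zero]
  · unfold fkE
    rw [Algebra.algebraMap_self, Polynomial.map_id]

end Pool.RZT
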